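import Mathlib
import Pool.Agent.K3h12.LNC.Main

/-!
# Starshapedness is decided by the clear visibility of `d + 1` locally non-convex points
(MP_ad2f8c_co, Q1)

For every `d`, a compact connected set `E` in `ℝ^d` is starshaped if and only if for any `d + 1` (not
necessarily distinct) locally non-convex points of `E` there is a point of `E` from which all of them
are clearly visible.

Proof: by Helly's theorem there is a point `y` in the intersection of the closed convex hulls of the
sets `A_q` (the points of `E` from which `q` is clearly visible), `q` a locally non-convex point.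
A minimax (mountain pass) argument on the connected set `E` shows that for every linear functional
`a`, every local maximum of `a` on `E` has a value of at least `a(y)`: two parts of a superlevel set
`{a ≥ μ}`, `μ < a(y)`, can only be joined at a locally non-convex point `q`, but there all points of `E`
near `q` see one point `z ∈ A_q` with `a(z) > μ`.  Krasnosel'skii's moving ball then shows that `y`
sees every point of `E`.
-/

set_option autoImplicit false

namespace Pool.Agent.Results.MP_ad2f8c_co.StarshapedIffClear

open Metric Set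

/-- `y ∈ E` sees `x ∈ E`: the closed segment from `x` to `y` is contained in `E`. -/
def Sees {d : ℕ} (E : Set (EuclideanSpace ℝ (Fin d))) (y x : EuclideanSpace ℝ (Fin d)) : Prop :=
  y ∈ E ∧ x ∈ E ∧ segment ℝ x y ⊆ E

/-- `E` is starshaped: some point of `E` sees every point of `E`. -/
def IsStarshaped {d : ℕ} (E : Set (EuclideanSpace ℝ (Fin d))) : Prop :=
  ∃ y ∈ E, ∀ x ∈ E, Sees E y x

/-- The boundary point `x` of `E` is locally non-convex: `B_r(x) ∩ E` is not convex for any
`r > 0`. -/
def IsLNC {d : ℕ} (E : Set (EuclideanSpace ℝ (Fin d))) (x : EuclideanSpace ℝ (Fin d)) : Prop :=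
  x ∈ frontier E ∧ ∀ r : ℝ, 0 < r → ¬ Convex ℝ (ball x r ∩ E)

/-- `x` is clearly visible from `y ∈ E`: for some `r > 0` the point `y` sees every point of
`B_r(x) ∩ E`. -/
def ClearlyVisible {d : ℕ} (E : Set (EuclideanSpace ℝ (Fin d)))
    (x y : EuclideanSpace ℝ (Fin d)) : Prop :=
  y ∈ E ∧ ∃ r : ℝ, 0 < r ∧ ∀ z ∈ ball x r ∩ E, Sees E y z

/-- The property `𝒞_n`: for any locally non-convex points `x_1, …, x_n` of `E`, not necessarily
distinct, there is a point of `E` from which all of them are clearly visible. -/
def PropertyC {d : ℕ} (n : ℕ) (E : Set (EuclideanSpace ℝ (Fin d))) : Prop :=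
  ∀ x : Fin n → EuclideanSpace ℝ (Fin d), (∀ i, IsLNC E (x i)) →
    ∃ y ∈ E, ∀ i, ClearlyVisible E (x i) y

/-- A compact connected set in `ℝ^d` is starshaped if and only if it has the property `𝒞_{d+1}`. -/
theorem result (d : ℕ) (E : Set (EuclideanSpace ℝ (Fin d))) (hE : IsCompact E)
    (hconn : IsConnected E) : PropertyC (d + 1) E ↔ IsStarshaped E := by
  classical
  constructor
  swap
  · rintro ⟨y, hy, hsee⟩ x _
    exact ⟨y, hy, fun i => ⟨hy, 1, one_pos, fun z hz => hsee z hz.2⟩⟩
  intro hC
  have hclear : ∀ x y : EuclideanSpace ℝ (Fin d), ClearlyVisible E x y →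
      Pool.Agent.K3h12.LNC.Clear E x y := by
    rintro x y ⟨_, r, hr, h⟩
    refine ⟨r, hr, fun u hu hux => ?_⟩
    have := (h u ⟨hux, hu⟩).2.2
    rwa [segment_symm] at this
  -- the candidate
  obtain ⟨y, hy1, hy2⟩ : ∃ y : EuclideanSpace ℝ (Fin d), y ∈ closure (convexHull ℝ E) ∧
      ∀ q, IsLNC E q →
        y ∈ closure (convexHull ℝ {z | z ∈ E ∧ Pool.Agent.K3h12.LNC.Clear E q z}) := by
    by_cases hQ : ∃ q, IsLNC E q
    · obtain ⟨q0, hq0⟩ := hQ
      let F : {q // IsLNC E q} → Set (EuclideanSpace ℝ (Fin d)) := fun q =>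
        closure (convexHull ℝ {z | z ∈ E ∧ Pool.Agent.K3h12.LNC.Clear E q.1 z})
      have hsub : ∀ q, F q ⊆ closure (convexHull ℝ E) := fun q =>
        closure_mono (convexHull_mono fun z hz => hz.1)
      have hcompact : IsCompact (closure (convexHull ℝ E)) :=
        Metric.isCompact_of_isClosed_isBounded isClosed_closure
          (isBounded_convexHull.2 hE.isBounded).closure
      have hne : (⋂ q, F q).Nonempty := by
        apply Convex.helly_theorem_compact' (𝕜 := ℝ)
        · intro q
          exact (convex_convexHull ℝ _).closure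
        · intro q
          exact hcompact.of_isClosed_subset isClosed_closure (hsub q)
        · intro I hI
          rw [finrank_euclideanSpace_fin] at hI
          let e := I.equivFin.symm
          let x : Fin (d + 1) → {q // IsLNC E q} := fun i =>
            if h : (i : ℕ) < I.card then (e ⟨i, h⟩).1 else ⟨q0, hq0⟩
          obtain ⟨y, hyE, hy⟩ := hC (fun i => (x i).1) (fun i => (x i).2)
          refine ⟨y, ?_⟩
          rw [mem_iInter₂]
          intro q hq
          apply subset_closure
          apply subset_convexHull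
          refine ⟨hyE, hclear _ _ ?_⟩
          have h1 : ((I.equivFin ⟨q, hq⟩ : Fin I.card) : ℕ) < d + 1 :=
            (I.equivFin ⟨q, hq⟩).2.trans_le hI
          have h2 := hy ⟨(I.equivFin ⟨q, hq⟩ : Fin I.card), h1⟩
          have h3 : x ⟨(I.equivFin ⟨q, hq⟩ : Fin I.card), h1⟩ = q := by
            simp only [x]
            rw [dif_pos (I.equivFin ⟨q, hq⟩).2]
            simp [e]
          rw [h3] at h2
          exact h2
      obtain ⟨y, hy⟩ := hne
      rw [mem_iInter] at hy
      exact ⟨y, hsub ⟨q0, hq0⟩ (hy ⟨q0, hq0⟩), fun q hq => hy ⟨q, hq⟩⟩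
    · push Not at hQ
      obtain ⟨y, hy⟩ := hconn.nonempty
      exact ⟨y, subset_closure (subset_convexHull ℝ E hy), fun q hq => absurd hq (hQ q)⟩
  have hker := Pool.Agent.K3h12.LNC.kernel E hE hconn.isPreconnected y hy1 (by
    intro x hx
    by_cases h : ∃ r > 0, Convex ℝ (ball x r ∩ E)
    · exact Or.inl h
    · right
      push Not at h
      apply hy2
      refine ⟨?_, h⟩
      rw [frontier, Set.mem_sdiff]
      refine ⟨subset_closure hx, fun hint => ?_⟩
      obtain ⟨r, hr, hball⟩ := Metric.mem_nhds_iff.1 (mem_interior_iff_mem_nhds.1 hint)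
      apply h r hr
      rw [inter_eq_left.2 hball]
      exact convex_ball x r)
  obtain ⟨z, hz⟩ := hconn.nonempty
  have hyE : y ∈ E := hker z hz (right_mem_segment ℝ z y)
  exact ⟨y, hyE, fun x hx => ⟨hyE, hx, hker x hx⟩⟩

end Pool.Agent.Results.MP_ad2f8c_co.StarshapedIffClear
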